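import Pool.Agent.H54.AX.Cr

/-!
# The commensurator of a translation is virtually cyclic

Proof. Let `g ∈ Com h` (`Pool.Agent.H76.VC.Com`): `g h ^ m g⁻¹ = h ^ n`. `L' i = g • L i` is a line; `L' (l * (m v)) = g h ^ (l m) • L 0 = h ^ (l n) g • L 0` and `L (l * (n v)) = h ^ (l n) • L 0`, their distance is `X.dist (g • L 0) (L 0)`
(`Pool.Agent.H76.VC.dist_sm'`). By `cross` every `L i` is on `g • L`. Apply this to `g⁻¹`: `g • L i` is on `L` for all `i`. So `g • L 0 = L c`, `g • L k = L d` with `|d - c| = k` (`k` the constant of `Acy`). With `c = v q + b`,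
`0 ≤ b < |v|`, the element `t = h ^ (- q) g` has `t • L 0 = L b`, `t • L k = L (b ± k)`. Two elements `t`, `t'` with the same `b` and the same sign differ by an element `t⁻¹ t'` which fixes `L 0` and `L k`, so that it is in a finite
set. So there are finitely many `t`, and `Com h` is the union of finitely many cosets of the cyclic group generated by `h` (`h ∈ Com h`).
-/

set_option autoImplicit false

namespace Pool.Agent.H54.AX

open Pool.Agent.H98.FJ Pool.Agent.H93.TR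

variable {Q V : Type} [Group Q] [MulAction Q V] {X : SimpleGraph V}

private theorem cm_zpow {L : ℤ → V} {h : Q} {v : ℤ} (h1 : ∀ i, h • L i = L (i + v)) (n : ℤ) :
    ∀ i, h ^ n • L i = L (i + n * v) := by
  have h2 : ∀ i, h⁻¹ • L i = L (i - v) := by
    intro i
    rw [inv_smul_eq_iff, h1, sub_add_cancel]
  induction n using Int.induction_on with
  | zero =>
    intro i
    rw [zpow_zero, one_smul, zero_mul, add_zero]
  | succ n ih =>
    intro i
    rw [zpow_add_one, mul_smul, h1, ih]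
    congr 1
    ring
  | pred n ih =>
    intro i
    rw [zpow_sub_one, mul_smul, h2, ih]
    congr 1
    ring

private theorem cm_on (hX : OnTree Q X) {L : ℤ → V} (hL : Line X L) {h : Q} {v : ℤ} (hv : v ≠ 0)
    (h1 : ∀ i, h • L i = L (i + v)) {g : Q} (hg : g ∈ Pool.Agent.H76.VC.Com h) (i : ℤ) : ∃ j, L i = g • L j := by
  obtain ⟨m, n, hm, hn, hmn⟩ := hg
  have hL' : Line X (fun i => g • L i) := by
    intro i j
    rw [Pool.Agent.H76.VC.dist_sm' hX]
    exact hL i j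
  refine cross hX.tree hL hL' (s := m * v) (s' := n * v) (mul_ne_zero hm hv) (mul_ne_zero hn hv)
    (D := X.dist (g • L 0) (L 0)) (fun l => ?_) i
  have e1 : g • L (l * (m * v)) = h ^ (l * n) • (g • L 0) := by
    have e2 : h ^ (l * n) = g * h ^ (l * m) * g⁻¹ := by
      rw [mul_comm l n, zpow_mul, ← hmn, conj_zpow, ← zpow_mul, mul_comm m l]
    rw [e2, mul_smul, mul_smul, inv_smul_smul, cm_zpow h1 (l * m) 0, zero_add, mul_assoc]
  have e3 : L (l * (n * v)) = h ^ (l * n) • L 0 := by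
    rw [cm_zpow h1 (l * n) 0, zero_add, mul_assoc]
  show X.dist (g • L (l * (m * v))) (L (l * (n * v))) ≤ X.dist (g • L 0) (L 0)
  rw [e1, e3, Pool.Agent.H76.VC.dist_sm' hX]

theorem com_vc (hX : OnTree Q X) {k N : ℕ} (hA : Acy Q X k N) {L : ℤ → V} (hL : Line X L) {h : Q} {v : ℤ} (hv : v ≠ 0)
    (h1 : ∀ i, h • L i = L (i + v)) : VirtuallyCyclic (Pool.Agent.H76.VC.Com h) := by
  have hh : h ∈ Pool.Agent.H76.VC.Com h := ⟨1, 1, one_ne_zero, one_ne_zero, by simp⟩
  have hz := cm_zpow h1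
  obtain ⟨F, hF⟩ : ∃ F : Set Q, F = {q : Q | q • L 0 = L 0 ∧ q • L (k : ℤ) = L (k : ℤ)} := ⟨_, rfl⟩
  have hFf : F.Finite := by
    have hk : k ≤ X.dist (L 0) (L (k : ℤ)) := by
      have h2 := hL 0 (k : ℤ)
      rw [zero_sub, abs_neg, Nat.abs_cast] at h2
      exact_mod_cast h2.symm.le
    obtain ⟨s, -, hs⟩ := hA _ _ hk
    refine s.finite_toSet.subset fun q hq => ?_
    rw [hF] at hq
    exact hs q hq.1 hq.2
  have hTf : ∀ b c : ℤ, {t : Q | t • L 0 = L b ∧ t • L (k : ℤ) = L c}.Finite := by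
    intro b c
    rcases Set.eq_empty_or_nonempty {t : Q | t • L 0 = L b ∧ t • L (k : ℤ) = L c} with h2 | ⟨t0, ht0⟩
    · rw [h2]
      exact Set.finite_empty
    · refine (hFf.image fun q => t0 * q).subset fun t ht => ⟨t0⁻¹ * t, ?_, mul_inv_cancel_left _ _⟩
      rw [hF]
      refine ⟨?_, ?_⟩
      · rw [mul_smul, ht.1, inv_smul_eq_iff, ht0.1]
      · rw [mul_smul, ht.2, inv_smul_eq_iff, ht0.2]
  obtain ⟨T, hT⟩ : ∃ T : Set Q, T = ⋃ b ∈ Finset.Icc (0 : ℤ) |v|, ({t : Q | t • L 0 = L b ∧ t • L (k : ℤ) = L (b + k)} ∪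
      {t : Q | t • L 0 = L b ∧ t • L (k : ℤ) = L (b - k)}) := ⟨_, rfl⟩
  have hTF : T.Finite := by
    rw [hT]
    exact Set.Finite.biUnion (Finset.finite_toSet _) fun b _ => (hTf _ _).union (hTf _ _)
  have hcov : ∀ g ∈ Pool.Agent.H76.VC.Com h, ∃ q : ℤ, h ^ q * g ∈ T := by
    intro g hg
    have hgi : g⁻¹ ∈ Pool.Agent.H76.VC.Com h := Subgroup.inv_mem _ hg
    have hmv : ∀ i, ∃ j, g • L i = L j := by
      intro i
      obtain ⟨j, hj⟩ := cm_on hX hL hv h1 hgi i
      exact ⟨j, by rw [hj, smul_inv_smul]⟩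
    obtain ⟨c, hc⟩ := hmv 0
    obtain ⟨d, hd⟩ := hmv (k : ℤ)
    have hcd : |c - d| = k := by
      have h2 := hL c d
      rw [← hc, ← hd, Pool.Agent.H76.VC.dist_sm' hX, hL 0 (k : ℤ), zero_sub, abs_neg, Nat.abs_cast] at h2
      exact h2.symm
    have hce : c + -(c / v) * v = c % v := by
      have h3 := Int.emod_add_mul_ediv c v
      linear_combination -h3
    refine ⟨-(c / v), ?_⟩
    rw [hT]
    refine Set.mem_biUnion (x := c % v) ?_ ?_
    · rw [Finset.mem_coe, Finset.mem_Icc]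
      exact ⟨Int.emod_nonneg c hv, (Int.emod_lt_abs c hv).le⟩
    · have h4 : (h ^ (-(c / v)) * g) • L 0 = L (c % v) := by
        rw [mul_smul, hc, hz, hce]
      have h5 : (h ^ (-(c / v)) * g) • L (k : ℤ) = L (c % v + (d - c)) := by
        rw [mul_smul, hd, hz, ← hce]
        congr 1
        ring
      rcases abs_choice (c - d) with h6 | h6
      · right
        refine ⟨h4, ?_⟩
        rw [h5]
        congr 1
        rw [h6] at hcd
        linear_combination -hcd
      · left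
        refine ⟨h4, ?_⟩
        rw [h5]
        congr 1
        rw [h6] at hcd
        linear_combination hcd
  refine ⟨⟨h, hh⟩, ?_⟩
  rw [Subgroup.finiteIndex_iff_finite_quotient]
  have hTF' : {x : Pool.Agent.H76.VC.Com h | (x : Q)⁻¹ ∈ T}.Finite := by
    refine Set.Finite.preimage (f := fun x : Pool.Agent.H76.VC.Com h => (x : Q)⁻¹) ?_ hTF
    exact (inv_injective.comp Subtype.val_injective).injOn
  have hsurj : (QuotientGroup.mk : Pool.Agent.H76.VC.Com h → Pool.Agent.H76.VC.Com h ⧸ Subgroup.zpowers (⟨h, hh⟩ : Pool.Agent.H76.VC.Com h)) ''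
      {x : Pool.Agent.H76.VC.Com h | (x : Q)⁻¹ ∈ T} = Set.univ := by
    rw [Set.eq_univ_iff_forall]
    intro y
    obtain ⟨g, rfl⟩ := QuotientGroup.mk_surjective y
    obtain ⟨q, hq⟩ := hcov _ (Subgroup.inv_mem _ g.2)
    refine ⟨g * (⟨h, hh⟩ : Pool.Agent.H76.VC.Com h) ^ (-q), ?_, ?_⟩
    · show ((g * (⟨h, hh⟩ : Pool.Agent.H76.VC.Com h) ^ (-q) : Pool.Agent.H76.VC.Com h) : Q)⁻¹ ∈ T
      have h7 : ((g * (⟨h, hh⟩ : Pool.Agent.H76.VC.Com h) ^ (-q) : Pool.Agent.H76.VC.Com h) : Q)⁻¹ = h ^ q * (g : Q)⁻¹ := by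
        rw [Subgroup.coe_mul, Subgroup.coe_zpow, mul_inv_rev, ← zpow_neg, neg_neg]
      rw [h7]
      exact hq
    · rw [QuotientGroup.eq]
      refine ⟨q, ?_⟩
      rw [mul_inv_rev, ← zpow_neg, neg_neg, inv_mul_cancel_right]
  exact Set.finite_univ_iff.1 (hsurj ▸ hTF'.image _)

end Pool.Agent.H54.AX
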