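import Pool.Agent.H54.AX.Defs

/-!
# The axis of a translation

Proof. Let `L i = h ^ (i / v) • f (i % v)` (integer division, `0 ≤ i % v < |v|`). `h • L i = L (i + v)`: `(i + v) / v = i / v + 1`, `(i + v) % v = i % v`.
`L i = f i` for `0 ≤ i ≤ |v| + 2` (translate by `h` once or twice more, `Trn1`, `a + 2 ≤ m`; for `v < 0` use `h⁻¹`: `h⁻¹ • f (i + v) = f i` for `|i| ≤ m`; or show `L i = f i` for all `|i| ≤ m` by
induction). So, with `b = i % v`, `c = i / v`: `L (i + t) = h ^ c • f (b + t)` for `t = 0, 1, 2`, hence `L i`, `L (i + 1)` are adjacent (`dist = 1`) and `L i ≠ L (i + 2)` (`dist = 2`).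
`Pool.Agent.H76.VC.line_dist` for `fun n : ℕ => L (i + n)` gives `X.dist (L i) (L (i + n)) = n` for all `i` and all `n : ℕ`; symmetric.
-/

set_option autoImplicit false

namespace Pool.Agent.H54.AX

open Pool.Agent.H98.FJ Pool.Agent.H93.TR

variable {Q V : Type} [Group Q] [MulAction Q V] {X : SimpleGraph V}

private theorem pos_line (hX : OnTree Q X) {M : ℤ} {f : ℤ → V}
    (hf : ∀ i j : ℤ, |i| ≤ M → |j| ≤ M → (X.dist (f i) (f j) : ℤ) = |i - j|) {g : Q} {n : ℤ} (hn : 0 < n)
    (hM : n + 2 ≤ M) (h1 : ∀ i : ℤ, 0 ≤ i → i ≤ 1 → g • f i = f (i + n)) :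
    ∃ L : ℤ → V, Line X L ∧ ∀ i, g • L i = L (i + n) := by
  obtain ⟨L, hL⟩ : ∃ L : ℤ → V, L = fun i => g ^ (i / n) • f (i % n) := ⟨_, rfl⟩
  have hn0 : n ≠ 0 := hn.ne'
  -- the values
  have hB : ∀ k : ℕ, ∀ r : ℤ, r = k → r ≤ n + 1 → ∀ c : ℤ, L (c * n + r) = g ^ c • f r := by
    intro k
    induction k using Nat.strong_induction_on with
    | _ k ih =>
      intro r hr hrn c
      rcases lt_or_ge r n with h | h
      · rw [hL]
        simp only
        have e1 : (c * n + r) / n = c := by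
          rw [Int.add_comm, Int.add_mul_ediv_right _ _ hn0, Int.ediv_eq_zero_of_lt (by omega) h, zero_add]
        have e2 : (c * n + r) % n = r := by
          rw [Int.add_comm, Int.add_mul_emod_self_right, Int.emod_eq_of_lt (by omega) h]
        rw [e1, e2]
      · have e1 : c * n + r = (c + 1) * n + (r - n) := by ring
        have h2 := ih (r - n).toNat (by omega) (r - n) (by omega) (by omega) (c + 1)
        rw [e1, h2, zpow_add_one, mul_smul, h1 (r - n) (by omega) (by omega), sub_add_cancel]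
  have hC : ∀ i : ℤ, ∃ c r : ℤ, 0 ≤ r ∧ r < n ∧ i = c * n + r := fun i =>
    ⟨i / n, i % n, Int.emod_nonneg _ hn0, Int.emod_lt_of_pos _ hn, by
      have := Int.mul_ediv_add_emod i n
      rw [mul_comm] at this
      exact this.symm⟩
  have hB' : ∀ r : ℤ, 0 ≤ r → r ≤ n + 1 → ∀ c : ℤ, L (c * n + r) = g ^ c • f r := fun r h0 h2 c =>
    hB r.toNat r (by omega) h2 c
  have hadj : ∀ i : ℤ, X.Adj (L i) (L (i + 1)) := by
    intro i
    obtain ⟨c, r, hr0, hrn, rfl⟩ := hC i
    rw [add_assoc, hB' r hr0 (by omega), hB' (r + 1) (by omega) (by omega)]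
    refine hX.adj _ _ _ ?_
    rw [← SimpleGraph.dist_eq_one_iff_adj]
    have h2 := hf r (r + 1) (by rw [abs_of_nonneg hr0]; omega) (by rw [abs_of_nonneg (by omega)]; omega)
    have h3 : |r - (r + 1)| = 1 := by
      rw [show r - (r + 1) = -1 by ring]
      norm_num
    rw [h3] at h2
    exact_mod_cast h2
  have hne : ∀ i : ℤ, L i ≠ L (i + 2) := by
    intro i
    obtain ⟨c, r, hr0, hrn, rfl⟩ := hC i
    rw [add_assoc, hB' r hr0 (by omega), hB' (r + 2) (by omega) (by omega)]
    intro h2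
    have h3 : f r = f (r + 2) := MulAction.injective _ h2
    have h4 := hf r (r + 2) (by rw [abs_of_nonneg hr0]; omega) (by rw [abs_of_nonneg (by omega)]; omega)
    rw [h3, SimpleGraph.dist_self, show r - (r + 2) = -2 by ring] at h4
    norm_num at h4
  have hD : ∀ (i : ℤ) (k : ℕ), X.dist (L i) (L (i + k)) = k := by
    intro i k
    have h2 := (Pool.Agent.H76.VC.line_dist hX.tree (fun k : ℕ => L (i + k)) (fun k => by
      have := hadj (i + k)
      rw [add_assoc] at this
      push_cast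
      exact this) (fun k => by
      have := hne (i + k)
      rw [add_assoc] at this
      push_cast
      exact this) k).1
    simp only [Nat.cast_zero, add_zero] at h2
    exact h2
  refine ⟨L, ?_, ?_⟩
  · have key : ∀ i j : ℤ, i ≤ j → (X.dist (L i) (L j) : ℤ) = |i - j| := by
      intro i j hij
      have h2 := hD i (j - i).toNat
      have h3 : ((j - i).toNat : ℤ) = j - i := Int.toNat_of_nonneg (by omega)
      rw [h3, add_sub_cancel] at h2
      rw [h2, h3, abs_sub_comm, abs_of_nonneg (by omega)]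
    intro i j
    rcases le_total i j with h | h
    · exact key i j h
    · rw [SimpleGraph.dist_comm, abs_sub_comm]
      exact key j i h
  · intro i
    obtain ⟨c, r, hr0, hrn, rfl⟩ := hC i
    rw [show c * n + r + n = (c + 1) * n + r by ring, hB' r hr0 (by omega), hB' r hr0 (by omega), ← mul_smul, ← zpow_one_add,
      add_comm]

theorem exists_line (hX : OnTree Q X) {m a : ℕ} {f : ℤ → V} (hf : Geo1 X (m + a) f) {h : Q} {v : ℤ} (hv : v ≠ 0)
    (ha : |v| ≤ a) (hm : a + 2 ≤ m) (h1 : Trn1 m f h v) : ∃ L : ℤ → V, Line X L ∧ ∀ i, h • L i = L (i + v) := by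
  have hf' : ∀ i j : ℤ, |i| ≤ ((m + a : ℕ) : ℤ) → |j| ≤ ((m + a : ℕ) : ℤ) → (X.dist (f i) (f j) : ℤ) = |i - j| := hf
  have hv1 := abs_le.1 ha
  rcases lt_or_gt_of_ne hv with h2 | h2
  · obtain ⟨L, hL, hL2⟩ := pos_line hX hf' (g := h⁻¹) (n := -v) (by omega) (by push_cast; omega) (by
      intro i h0 h3
      have h4 := h1 (i - v) (by rw [abs_of_nonneg (by omega)]; omega)
      rw [sub_add_cancel] at h4
      rw [← h4, inv_smul_smul, sub_eq_add_neg])
    refine ⟨L, hL, fun i => ?_⟩
    have h3 := hL2 (i + v)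
    rw [add_neg_cancel_right] at h3
    rw [← h3, smul_inv_smul]
  · exact pos_line hX hf' h2 (by push_cast; omega) (fun i h0 h3 => h1 i (by rw [abs_of_nonneg h0]; omega))

end Pool.Agent.H54.AX
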