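import Pool.Agent.H54.AX.Defs

/-!
# Two translations of the same segment have a common power

Proof. `u = h ^ v'`, `u' = h' ^ v` translate by `v v'`: `u • f i = f (i + v v')` if `|i| + a * a ≤ m` (all intermediate parameters have absolute value at most `m`; also for negative exponents), and `u ^ n • f i = f (i + n v v')` if
`|i| + |n| a * a ≤ m`. For `n = 0, .., N` the element `x n = u ^ n * u' * u ^ (- n - 1)` fixes `f 0` and `f k`, whose distance is `k`. So `x n` is in the set `s` of `Acy` for all `n ≤ N`, and by the pigeonhole principle `x i = x j` for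
some `i < j ≤ N`; with `e = j - i`: `u'` commutes with `w = u ^ e`. `z = u' ^ e * w⁻¹` fixes `f 0` and `f k`, and so do its powers, so `z ^ c = 1` for some `c ≥ 1`; `z` commutes with `w`. Hence `u' ^ (e c) = (z w) ^ c = w ^ c = u ^ (e c)`.
-/

set_option autoImplicit false

namespace Pool.Agent.H54.AX

open Pool.Agent.H98.FJ Pool.Agent.H93.TR

variable {Q V : Type} [Group Q] [MulAction Q V] {X : SimpleGraph V}

/-- powers of a translation of a segment; natural exponents -/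
private theorem pw_nat {m : ℕ} {f : ℤ → V} {h : Q} {v : ℤ} (h1 : Trn1 m f h v) (n : ℕ) :
    ∀ i : ℤ, |i| ≤ m → |i + n * v| ≤ m → h ^ n • f i = f (i + n * v) := by
  induction n with
  | zero =>
      intro i _ _
      simp
  | succ n ih =>
      intro i hi hn
      have hmid : |i + n * v| ≤ m := by
        rw [abs_le] at hi hn ⊢
        push_cast at hn
        rcases le_total 0 v with hv | hv
        · have h0 : 0 ≤ (n : ℤ) * v := mul_nonneg (Int.natCast_nonneg n) hv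
          constructor <;> nlinarith [hi.1, hi.2, hn.1, hn.2]
        · have h0 : (n : ℤ) * v ≤ 0 := mul_nonpos_of_nonneg_of_nonpos (Int.natCast_nonneg n) hv
          constructor <;> nlinarith [hi.1, hi.2, hn.1, hn.2]
      rw [pow_succ', mul_smul, ih i hi hmid, h1 _ hmid]
      congr 1
      push_cast
      ring

private theorem pw_int {m : ℕ} {f : ℤ → V} {h : Q} {v : ℤ} (h1 : Trn1 m f h v) (n : ℤ) (i : ℤ) (hi : |i| ≤ m)
    (hn : |i + n * v| ≤ m) : h ^ n • f i = f (i + n * v) := by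
  obtain ⟨k, rfl | rfl⟩ := Int.eq_nat_or_neg n
  · rw [zpow_natCast]
    exact pw_nat h1 k i hi hn
  · rw [zpow_neg, zpow_natCast, inv_smul_eq_iff]
    have h2 := pw_nat h1 k (i + -(k : ℤ) * v) hn (by
      have e : i + -(k : ℤ) * v + k * v = i := by ring
      rw [e]
      exact hi)
    rw [h2]
    congr 1
    ring

theorem common_power {k N : ℕ} (hA : Acy Q X k N) {a m : ℕ} (hm : (N + 2) * (a * a) + k + a ≤ m) {f : ℤ → V}
    (hf : Geo1 X (m + a) f) {h h' : Q} {v v' : ℤ} (hv : v ≠ 0) (hv' : v' ≠ 0) (ha : |v| ≤ a) (ha' : |v'| ≤ a)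
    (h1 : Trn1 m f h v) (h2 : Trn1 m f h' v') : ∃ c c' : ℤ, c ≠ 0 ∧ c' ≠ 0 ∧ h ^ c = h' ^ c' := by
  classical
  obtain ⟨t, ht⟩ : ∃ t : ℤ, t = v * v' := ⟨_, rfl⟩
  have ht0 : t ≠ 0 := by
    rw [ht]
    exact mul_ne_zero hv hv'
  have hta : |t| ≤ a * a := by
    rw [ht, abs_mul]
    exact mul_le_mul ha ha' (abs_nonneg _) (Int.natCast_nonneg a)
  obtain ⟨u, hu⟩ : ∃ u : Q, u = h ^ v' := ⟨_, rfl⟩
  obtain ⟨u', hu'⟩ : ∃ u' : Q, u' = h' ^ v := ⟨_, rfl⟩
  have hU : ∀ n i : ℤ, |i| ≤ m → |i + n * t| ≤ m → u ^ n • f i = f (i + n * t) := by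
    intro n i hi hn
    have e : n * t = v' * n * v := by
      rw [ht]
      ring
    rw [e] at hn ⊢
    rw [hu, ← zpow_mul]
    exact pw_int h1 (v' * n) i hi hn
  have hU' : ∀ n i : ℤ, |i| ≤ m → |i + n * t| ≤ m → u' ^ n • f i = f (i + n * t) := by
    intro n i hi hn
    have e : n * t = v * n * v' := by
      rw [ht]
      ring
    rw [e] at hn ⊢
    rw [hu', ← zpow_mul]
    exact pw_int h2 (v * n) i hi hn
  have hmz : ((N : ℤ) + 2) * (a * a) + k + a ≤ m := by exact_mod_cast hm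
  have haz : (0 : ℤ) ≤ a := Int.natCast_nonneg a
  have hkz : (0 : ℤ) ≤ k := Int.natCast_nonneg k
  have haa : (0 : ℤ) ≤ (a : ℤ) * a := mul_nonneg haz haz
  -- the two points
  have hpt : ∀ (n : ℤ) (b : ℤ), 0 ≤ n → n ≤ N + 1 → 0 ≤ b → b ≤ k → |b + -n * t| ≤ m := by
    intro n b hn hn1 hb hbk
    have h3 : |n * t| ≤ (N + 1) * (a * a) := by
      rw [abs_mul, abs_of_nonneg hn]
      exact mul_le_mul hn1 hta (abs_nonneg _) (by linarith)
    have h4 : |b + -n * t| ≤ |b| + |n * t| := by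
      have h5 := abs_add_le b (-n * t)
      rw [neg_mul, abs_neg] at h5
      rw [neg_mul]
      exact h5
    rw [abs_of_nonneg hb] at h4
    nlinarith
  have hb0 : ∀ b : ℤ, 0 ≤ b → b ≤ k → |b| ≤ m := by
    intro b hb hbk
    have := hpt 0 b le_rfl (by positivity) hb hbk
    simpa using this
  have hfix : ∀ (n : ℤ) (b : ℤ), 0 ≤ n → n ≤ N → 0 ≤ b → b ≤ k → (u ^ n * u' * u ^ (-n - 1)) • f b = f b := by
    intro n b hn hnN hb hbk
    rw [mul_smul, mul_smul]
    have e1 : b + (-n - 1) * t = b + -(n + 1) * t := by ring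
    have h3 := hU (-n - 1) b (hb0 b hb hbk) (by
      rw [e1]
      exact hpt (n + 1) b (by linarith) (by linarith) hb hbk)
    rw [h3, e1]
    have e2 : b + -(n + 1) * t + 1 * t = b + -n * t := by ring
    have h4 := hU' 1 (b + -(n + 1) * t) (hpt (n + 1) b (by linarith) (by linarith) hb hbk) (by
      rw [e2]
      exact hpt n b hn (by linarith) hb hbk)
    rw [zpow_one, e2] at h4
    rw [h4]
    have e3 : b + -n * t + n * t = b := by ring
    have h5 := hU n (b + -n * t) (hpt n b hn (by linarith) hb hbk) (by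
      rw [e3]
      exact hb0 b hb hbk)
    rw [h5, e3]
  have hdist : k ≤ X.dist (f 0) (f k) := by
    have h3 := hf 0 k (by simp; positivity) (by
      rw [abs_of_nonneg hkz]
      push_cast
      nlinarith)
    have h4 : (X.dist (f 0) (f k) : ℤ) = k := by
      rw [h3]
      simp
    exact_mod_cast h4.ge
  obtain ⟨s, hs, hsx⟩ := hA (f 0) (f k) hdist
  -- pigeonhole
  have hmaps : ∀ n ∈ Finset.range (N + 1), u ^ (n : ℤ) * u' * u ^ (-(n : ℤ) - 1) ∈ s := by
    intro n hn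
    have hn' : (n : ℤ) ≤ N := by
      have := Finset.mem_range.mp hn
      omega
    exact hsx _ (hfix n 0 (Int.natCast_nonneg n) hn' le_rfl hkz) (hfix n k (Int.natCast_nonneg n) hn' hkz le_rfl)
  have hcard : s.card < (Finset.range (N + 1)).card := by
    rw [Finset.card_range]
    omega
  obtain ⟨i, hi, j, hj, hij, he⟩ := Finset.exists_ne_map_eq_of_card_lt_of_maps_to hcard hmaps
  obtain ⟨i, j, hi, hj, hij, he⟩ : ∃ i j : ℕ, i ≤ N ∧ j ≤ N ∧ i < j ∧
      u ^ (i : ℤ) * u' * u ^ (-(i : ℤ) - 1) = u ^ (j : ℤ) * u' * u ^ (-(j : ℤ) - 1) := by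
    have hi' := Finset.mem_range.mp hi
    have hj' := Finset.mem_range.mp hj
    rcases Nat.lt_or_ge i j with h | h
    · exact ⟨i, j, by omega, by omega, h, he⟩
    · exact ⟨j, i, by omega, by omega, by omega, he.symm⟩
  obtain ⟨e, hee⟩ : ∃ e : ℕ, j = i + e := ⟨j - i, by omega⟩
  have he1 : 1 ≤ e := by omega
  have hcomm : u' * u ^ (e : ℤ) = u ^ (e : ℤ) * u' := by
    have h3 : u' = u ^ (e : ℤ) * u' * u ^ (-(e : ℤ)) := by
      have h4 : u' = u ^ (-(i : ℤ)) * (u ^ (i : ℤ) * u' * u ^ (-(i : ℤ) - 1)) * u ^ ((i : ℤ) + 1) := by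
        rw [show -(i : ℤ) - 1 = -((i : ℤ) + 1) by ring]
        simp only [mul_assoc, zpow_neg, inv_mul_cancel_left, inv_mul_cancel, mul_one]
      rw [he, hee] at h4
      have h5 : u ^ (-(i : ℤ)) * (u ^ (((i + e : ℕ) : ℤ)) * u' * u ^ (-(((i + e : ℕ) : ℤ)) - 1)) * u ^ ((i : ℤ) + 1) =
          (u ^ (-(i : ℤ)) * u ^ (((i + e : ℕ) : ℤ))) * u' * (u ^ (-(((i + e : ℕ) : ℤ)) - 1) * u ^ ((i : ℤ) + 1)) := by
        simp only [mul_assoc]
      rw [h5, ← zpow_add, ← zpow_add] at h4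
      have e1 : -(i : ℤ) + ((i + e : ℕ) : ℤ) = e := by
        push_cast
        ring
      have e2 : -(((i + e : ℕ) : ℤ)) - 1 + ((i : ℤ) + 1) = -(e : ℤ) := by
        push_cast
        ring
      rw [e1, e2] at h4
      exact h4
    calc u' * u ^ (e : ℤ) = u ^ (e : ℤ) * u' * u ^ (-(e : ℤ)) * u ^ (e : ℤ) := by rw [← h3]
      _ = u ^ (e : ℤ) * u' := by
          rw [mul_assoc (u ^ (e : ℤ) * u'), ← zpow_add, neg_add_cancel, zpow_zero, mul_one]
  have hc1 : Commute u' (u ^ (e : ℤ)) := hcomm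
  obtain ⟨z, hz⟩ : ∃ z : Q, z = u' ^ (e : ℤ) * (u ^ (e : ℤ))⁻¹ := ⟨_, rfl⟩
  have heN : (e : ℤ) ≤ N := by omega
  have hzfix : ∀ b : ℤ, 0 ≤ b → b ≤ k → z • f b = f b := by
    intro b hb hbk
    rw [hz, mul_smul, ← zpow_neg]
    have h3 := hU (-(e : ℤ)) b (hb0 b hb hbk) (hpt e b (Int.natCast_nonneg e) (by linarith) hb hbk)
    rw [h3]
    have e3 : b + -(e : ℤ) * t + e * t = b := by ring
    have h5 := hU' e (b + -(e : ℤ) * t) (hpt e b (Int.natCast_nonneg e) (by linarith) hb hbk) (by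
      rw [e3]
      exact hb0 b hb hbk)
    rw [h5, e3]
  have hzpow : ∀ (n : ℕ) (b : ℤ), 0 ≤ b → b ≤ k → z ^ n • f b = f b := by
    intro n b hb hbk
    induction n with
    | zero => simp
    | succ n ih => rw [pow_succ, mul_smul, hzfix b hb hbk, ih]
  obtain ⟨c, hc1', hc⟩ : ∃ c : ℕ, 1 ≤ c ∧ z ^ c = 1 := by
    have hm2 : ∀ n ∈ Finset.range (N + 1), z ^ n ∈ s := fun n _ =>
      hsx _ (hzpow n 0 le_rfl hkz) (hzpow n k hkz le_rfl)
    obtain ⟨p, _, q, _, hpq, hpe⟩ := Finset.exists_ne_map_eq_of_card_lt_of_maps_to hcard hm2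
    have hgen : ∀ p q : ℕ, p < q → z ^ p = z ^ q → ∃ c : ℕ, 1 ≤ c ∧ z ^ c = 1 := by
      intro p q hlt hpe
      obtain ⟨d, rfl⟩ : ∃ d, q = p + d := ⟨q - p, by omega⟩
      refine ⟨d, by omega, ?_⟩
      rw [pow_add] at hpe
      have h3 : z ^ p * 1 = z ^ p * z ^ d := by
        rw [mul_one]
        exact hpe
      exact (mul_left_cancel h3).symm
    rcases Nat.lt_or_ge p q with h | h
    · exact hgen p q h hpe
    · exact hgen q p (by omega) hpe.symm
  have hzw : Commute z (u ^ (e : ℤ)) := by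
    rw [hz]
    exact (hc1.zpow_left _).mul_left (Commute.refl _).inv_left
  have hzu : u' ^ (e : ℤ) = z * u ^ (e : ℤ) := by
    rw [hz, inv_mul_cancel_right]
  have hfin : (u' ^ (e : ℤ)) ^ c = (u ^ (e : ℤ)) ^ c := by
    rw [hzu, hzw.mul_pow, hc, one_mul]
  refine ⟨v' * e * c, v * e * c, ?_, ?_, ?_⟩
  · refine mul_ne_zero (mul_ne_zero hv' ?_) ?_
    · exact_mod_cast (by omega : e ≠ 0)
    · exact_mod_cast (by omega : c ≠ 0)
  · refine mul_ne_zero (mul_ne_zero hv ?_) ?_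
    · exact_mod_cast (by omega : e ≠ 0)
    · exact_mod_cast (by omega : c ≠ 0)
  · have e1 : h ^ (v' * e * c) = (u ^ (e : ℤ)) ^ c := by
      rw [zpow_mul, zpow_mul, ← hu, zpow_natCast]
    have e2 : h' ^ (v * e * c) = (u' ^ (e : ℤ)) ^ c := by
      rw [zpow_mul, zpow_mul, ← hu', zpow_natCast]
    rw [e1, e2]
    exact hfin.symm

end Pool.Agent.H54.AX
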