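import Pool.Agent.H54.AX.Rig
import Pool.Agent.H54.AX.Ln
import Pool.Agent.H54.AX.Pw
import Pool.Agent.H54.AX.Cm

/-!
# Local rigidity of groups which map to a group acting acylindrically on a tree

The object of a box which is translated by an element `q` is the class of the elements which have a common power with `q`.
-/

set_option autoImplicit false

namespace Pool.Agent.H54.AX

open Pool.Agent.H98.FJ Pool.Agent.H93.TR Pool.Agent.H76.VC

/-- the elements which have a common power with `q` -/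
def Cl {Q : Type} [Group Q] (q : Q) : Set Q := {x | ∃ c c' : ℤ, c ≠ 0 ∧ c' ≠ 0 ∧ x ^ c = q ^ c'}

theorem cl_eq {Q : Type} [Group Q] {q q' : Q} (h : ∃ c c' : ℤ, c ≠ 0 ∧ c' ≠ 0 ∧ q ^ c = q' ^ c') : Cl q = Cl q' := by
  have key : ∀ {x y : Q}, (∃ c c' : ℤ, c ≠ 0 ∧ c' ≠ 0 ∧ x ^ c = y ^ c') → Cl x ⊆ Cl y := by
    rintro x y ⟨c, c', hc, hc', h⟩ z ⟨d, d', hd, hd', h1⟩
    refine ⟨d * c, c' * d', mul_ne_zero hd hc, mul_ne_zero hc' hd', ?_⟩
    rw [zpow_mul, h1, ← zpow_mul, mul_comm, zpow_mul, h, ← zpow_mul]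
  obtain ⟨c, c', hc, hc', h⟩ := h
  exact Set.Subset.antisymm (key ⟨c, c', hc, hc', h⟩) (key ⟨c', c, hc', hc, h.symm⟩)

/-- conjugation of subsets of `Q` by `G` -/
@[reducible] def cact {G Q : Type} [Group G] [Group Q] (p : G →* Q) : MulAction G (Set Q) where
  smul g S := {x | (p g)⁻¹ * x * p g ∈ S}
  one_smul S := by
    ext x
    show (p 1)⁻¹ * x * p 1 ∈ S ↔ x ∈ S
    rw [map_one, inv_one, one_mul, mul_one]
  mul_smul g h S := by
    ext x
    show (p (g * h))⁻¹ * x * p (g * h) ∈ S ↔ (p h)⁻¹ * ((p g)⁻¹ * x * p g) * p h ∈ S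
    rw [map_mul, mul_inv_rev]
    simp only [mul_assoc]

/-- the path of a box, with centre `0` -/
def fb {V : Type} {r : ℕ} (B : Fin (2 * r + 1) → V) (i : ℤ) : V :=
  if h : (i + r).toNat < 2 * r + 1 then B ⟨(i + r).toNat, h⟩ else B ⟨0, by omega⟩

theorem fb_bx {V : Fin 1 → Type} {r : ℕ} (δ : Fin 1 → ℤ) (f : ∀ k, ℤ → V k) {i : ℤ} (hi : |i| ≤ r) :
    fb (bx r δ f 0) i = f 0 (δ 0 + i) := by
  obtain ⟨h1, h2⟩ := abs_le.1 hi
  have h : (i + r).toNat < 2 * r + 1 := by omega
  unfold fb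
  rw [dif_pos h]
  show f 0 (δ 0 - r + (((i + r).toNat : ℕ) : ℤ)) = f 0 (δ 0 + i)
  congr 1
  omega

theorem fb_smul {G V : Type} [Group G] [MulAction G V] {r : ℕ} (g : G) (B : Fin (2 * r + 1) → V) (i : ℤ) :
    fb (g • B) i = g • fb B i := by
  unfold fb
  split_ifs with h
  · rfl
  · rfl

variable {C : (G : Type) → [Group G] → Prop}

theorem cl_conj {Q : Type} [Group Q] (g q : Q) : Cl (g * q * g⁻¹) = {x | g⁻¹ * x * g ∈ Cl q} := by
  have conj' : ∀ (x : Q) (c : ℤ), (g⁻¹ * x * g) ^ c = g⁻¹ * x ^ c * g := by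
    intro x c
    have := conj_zpow (a := g⁻¹) (b := x) (i := c)
    rwa [inv_inv] at this
  ext x
  constructor
  · rintro ⟨c, c', hc, hc', h⟩
    refine ⟨c, c', hc, hc', ?_⟩
    rw [conj', h, conj_zpow]
    group
  · rintro ⟨c, c', hc, hc', h⟩
    refine ⟨c, c', hc, hc', ?_⟩
    rw [conj'] at h
    rw [conj_zpow, ← h]
    group

theorem locRig (hC : Inherits C) {G Q V : Type} [Group G] [Group Q] [MulAction Q V] (p : G →* Q) {X : SimpleGraph V}
    (hX : OnTree Q X) {k N : ℕ} (hA : Acy Q X k N) (hVC : ∀ U : Subgroup Q, VirtuallyCyclic U → C (U.comap p)) :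
    @LocRig C G _ 1 (fun _ => V) (fun _ => MulAction.compHom V p) (fun _ => X) 1 := by
  letI hGV : MulAction G V := MulAction.compHom V p
  have hact : ∀ (g : G) (x : V), g • x = p g • x := fun g x => rfl
  intro R a
  let r : ℕ := (N + 2) * (a * a) + k + a + a + 2
  let Ob : Bx (fun _ : Fin 1 => V) r → Set Q → Prop := fun B o =>
    ∃ (q : Q) (v : ℤ), v ≠ 0 ∧ |v| ≤ a ∧ Geo1 X r (fb (B 0)) ∧ Trn1 (r - a) (fb (B 0)) q v ∧ o = Cl q
  have hr : (r - a) + a = r := by omega
  refine ⟨r, fun _ => Set Q, fun _ => cact p, fun _ => Ob, ?_, ?_, ?_, ?_⟩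
  · rintro - B _ _ ⟨q, v, hv, hva, hg, ht, rfl⟩ ⟨q', v', hv', hva', -, ht', rfl⟩
    refine cl_eq (common_power hA (a := a) (m := r - a) (by omega) (f := fb (B 0)) (by rw [hr]; exact hg) hv hv' hva hva'
      ht ht')
  · rintro - B _ g ⟨q, v, hv, hva, hg, ht, rfl⟩
    refine ⟨p g * q * (p g)⁻¹, v, hv, hva, ?_, ?_, ?_⟩
    · intro i j hi hj
      show (X.dist (fb (g • (B 0 : Fin (2 * r + 1) → V)) i) (fb (g • (B 0 : Fin (2 * r + 1) → V)) j) : ℤ) = |i - j|
      rw [fb_smul, fb_smul, hact, hact, dist_sm' hX]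
      exact hg i j hi hj
    · intro i hi
      show (p g * q * (p g)⁻¹) • fb (g • (B 0 : Fin (2 * r + 1) → V)) i = fb (g • (B 0 : Fin (2 * r + 1) → V)) (i + v)
      rw [fb_smul, fb_smul, hact, hact, mul_smul, mul_smul, inv_smul_smul, ht i hi]
    · exact (cl_conj (p g) q).symm
  · rintro - B _ ⟨q, v, hv, hva, hg, ht, rfl⟩
    obtain ⟨L, hL, hq⟩ := exists_line hX (m := r - a) (a := a) (f := fb (B 0)) (by rw [hr]; exact hg) hv hva (by omega) ht
    have h1 : C ((Com q).comap p) := hVC _ (com_vc hX hA hL hv hq)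
    have h2 : ∀ g : G, g ∈ @MulAction.stabilizer G (Set Q) _ (cact p) (Cl q) → p g ∈ Com q := by
      intro g hg
      have h3 : {x | (p g)⁻¹ * x * p g ∈ Cl q} = Cl q := hg
      have h4 : q ∈ Cl q := ⟨1, 1, one_ne_zero, one_ne_zero, rfl⟩
      rw [← h3] at h4
      obtain ⟨c, c', hc, hc', h5⟩ := h4
      have h6 : (p g)⁻¹ ∈ Com q := by
        refine ⟨c, c', hc, hc', ?_⟩
        rw [inv_inv, ← h5]
        have := conj_zpow (a := (p g)⁻¹) (b := q) (i := c)
        rw [inv_inv] at this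
        exact this.symm
      have h7 := (Com q).inv_mem h6
      rwa [inv_inv] at h7
    exact hC.of_injective
      { toFun := fun x : @MulAction.stabilizer G (Set Q) _ (cact p) (Cl q) => (⟨x.1, h2 x.1 x.2⟩ : (Com q).comap p)
        map_one' := rfl
        map_mul' := fun _ _ => rfl } (fun x y hxy => Subtype.ext (Subtype.mk.inj hxy)) h1
  · intro f hf
    by_cases h : ∃ v : Fin 1 → ℤ, v ≠ 0 ∧ (∀ k, |v k| ≤ a) ∧ ∃ g : G, Trn (r + R) f g v
    · left
      obtain ⟨v, hv, hva, g, hg⟩ := h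
      refine ⟨0, Cl (p g), fun δ hδ => ⟨p g, v 0, ?_, hva 0, ?_, ?_, rfl⟩⟩
      · intro h0
        apply hv
        funext k
        rw [Subsingleton.elim k 0, h0]
        rfl
      · intro i j hi hj
        have h1 := hδ 0
        rw [fb_bx δ f hi, fb_bx δ f hj]
        have h2 := hf 0 (δ 0 + i) (δ 0 + j) (by
          have := abs_add_le (δ 0) i
          push_cast
          linarith) (by
          have := abs_add_le (δ 0) j
          push_cast
          linarith)
        rw [h2]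
        congr 1
        ring
      · intro i hi
        have h1 := hδ 0
        have h3 : |v 0| ≤ a := hva 0
        have h4 : ((r - a : ℕ) : ℤ) = r - a := by omega
        rw [h4] at hi
        have h5 : |i| ≤ (r : ℤ) := by
          have : (0 : ℤ) ≤ a := Int.natCast_nonneg a
          linarith
        have h6 : |i + v 0| ≤ (r : ℤ) := by
          have := abs_add_le i (v 0)
          linarith
        rw [fb_bx δ f h5, fb_bx δ f h6, ← hact]
        have h7 := hg 0 (δ 0 + i) (by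
          have := abs_add_le (δ 0) i
          push_cast
          linarith)
        rw [h7, add_assoc]
    · right
      intro v hv hva g hg
      exact h ⟨v, hv, hva, g, hg⟩

end Pool.Agent.H54.AX
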