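import Pool.Agent.H76.VC.Path

/-!
# A countable group which acts on a tree acts on a countable subtree
-/

set_option autoImplicit false

namespace Pool.Agent.H54.AX

open Pool.Agent.H98.FJ Pool.Agent.H93.TR

variable {G V : Type} [Group G] [MulAction G V] {X : SimpleGraph V}

/-- a walk inside the set `W` is a walk in the induced graph -/
private theorem reach_comap {W : SubMulAction G V} {v w : V} (q : X.Walk v w) (hq : ∀ x ∈ q.support, x ∈ W) :
    (X.comap (fun x : W => (x : V))).Reachable ⟨v, hq v q.start_mem_support⟩ ⟨w, hq w q.end_mem_support⟩ := by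
  induction q with
  | nil => exact SimpleGraph.Reachable.refl _
  | @cons a b c h q ih =>
    have h1 : ∀ x ∈ q.support, x ∈ W := fun x hx => hq x (by
      rw [SimpleGraph.Walk.support_cons]
      exact List.mem_cons_of_mem _ hx)
    have h2 : (X.comap (fun x : W => (x : V))).Adj ⟨a, hq a (by simp)⟩ ⟨b, h1 b q.start_mem_support⟩ := h
    exact h2.reachable.trans (ih h1)

theorem exists_ctree [Countable G] (hX : OnTree G X) :
    ∃ W : SubMulAction G V, Countable W ∧ OnTree G (X.comap (fun x : W => (x : V))) ∧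
      ∀ a b : W, (X.comap (fun x : W => (x : V))).dist a b = X.dist (a : V) (b : V) := by
  classical
  obtain ⟨v0⟩ := hX.tree.connected.nonempty
  have hw : ∀ s : G, Nonempty (X.Walk v0 (s • v0)) := fun s => hX.tree.connected.preconnected v0 (s • v0)
  let q : ∀ s : G, X.Walk v0 (s • v0) := fun s => (hw s).some
  let W : SubMulAction G V :=
    { carrier := {v | ∃ g h : G, ∃ x ∈ (q h).support, v = g • x}
      smul_mem' := by
        rintro g' v ⟨g, h, x, hx, rfl⟩
        exact ⟨g' * g, h, x, hx, (mul_smul _ _ _).symm⟩ }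
  have hmem : ∀ v, v ∈ W ↔ ∃ g h : G, ∃ x ∈ (q h).support, v = g • x := fun v => Iff.rfl
  have hcount : Countable W := by
    have h1 : (⋃ p : G × G, {v | ∃ x ∈ (q p.2).support, v = p.1 • x}).Countable := by
      refine Set.countable_iUnion fun p => ?_
      refine ((List.finite_toSet (q p.2).support).image (fun x => p.1 • x)).countable.mono ?_
      rintro v ⟨x, hx, rfl⟩
      exact ⟨x, hx, rfl⟩
    refine (h1.mono ?_).to_subtype
    rintro v ⟨g, h, hv⟩
    exact Set.mem_iUnion.2 ⟨(g, h), hv⟩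
  have hv0 : v0 ∈ W := ⟨1, 1, v0, (q 1).start_mem_support, (one_smul _ _).symm⟩
  have hφ : ∀ g : G, ∃ φ : X →g X, ∀ x, φ x = g • x := fun g => ⟨⟨fun x => g • x, fun {a b} h => hX.adj g a b h⟩, fun _ => rfl⟩
  have hreach : ∀ x : W, (X.comap (fun x : W => (x : V))).Reachable ⟨v0, hv0⟩ x := by
    rintro ⟨x, g, h, y, hy, rfl⟩
    obtain ⟨φ, hφ⟩ := hφ g
    have h1 : ∀ z ∈ (q g).support, z ∈ W := fun z hz => ⟨1, g, z, hz, (one_smul _ _).symm⟩
    have h2 := reach_comap (q g) h1
    have h3 : ∀ z ∈ (((q h).takeUntil y hy).map φ).support, z ∈ W := by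
      intro z hz
      rw [SimpleGraph.Walk.support_map, List.mem_map] at hz
      obtain ⟨z', hz', rfl⟩ := hz
      rw [hφ]
      exact ⟨g, h, z', (q h).support_takeUntil_subset_support hy hz', rfl⟩
    have h4 := reach_comap (((q h).takeUntil y hy).map φ) h3
    have h5 : (X.comap (fun x : W => (x : V))).Reachable ⟨g • v0, h1 _ (q g).end_mem_support⟩
        ⟨g • y, ⟨g, h, y, hy, rfl⟩⟩ := by
      have e1 : (⟨φ v0, h3 _ (((q h).takeUntil y hy).map φ).start_mem_support⟩ : W)
          = ⟨g • v0, h1 _ (q g).end_mem_support⟩ := Subtype.ext (hφ v0)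
      have e2 : (⟨φ y, h3 _ (((q h).takeUntil y hy).map φ).end_mem_support⟩ : W)
          = ⟨g • y, ⟨g, h, y, hy, rfl⟩⟩ := Subtype.ext (hφ y)
      rw [e1, e2] at h4
      exact h4
    exact h2.trans h5
  have hconn : (X.comap (fun x : W => (x : V))).Connected := by
    have : Nonempty W := ⟨⟨v0, hv0⟩⟩
    exact ⟨fun x y => (hreach x).symm.trans (hreach y)⟩
  have hac : (X.comap (fun x : W => (x : V))).IsAcyclic :=
    hX.tree.isAcyclic.comap ⟨fun x : W => (x : V), fun {_ _} h => h⟩ Subtype.val_injective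
  refine ⟨W, hcount, ⟨⟨hconn, hac⟩, fun g a b h => hX.adj g _ _ h⟩, ?_⟩
  intro a b
  let ψ : (X.comap (fun x : W => (x : V))) →g X := ⟨fun x : W => (x : V), fun {_ _} h => h⟩
  obtain ⟨p, hp, hpl⟩ := hconn.exists_path_of_dist a b
  obtain ⟨p', hp', hpl'⟩ := hX.tree.connected.exists_path_of_dist (a : V) (b : V)
  have h1 : (p.map ψ).IsPath := hp.map Subtype.val_injective
  have h2 := hX.tree.isAcyclic.path_unique ⟨p.map ψ, h1⟩ ⟨p', hp'⟩
  have h3 : p.map ψ = p' := congrArg Subtype.val h2
  rw [← hpl, ← hpl', ← h3, SimpleGraph.Walk.length_map]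

end Pool.Agent.H54.AX
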