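import Pool.Agent.H54.AX.Lr
import Pool.Agent.H54.AX.Ct
import Pool.Agent.H54.PA.Defs
import Pool.Agent.H76.VC.Ab
import Pool.Agent.H76.VC.Cen
import Pool.Agent.H76.VC.Cyc

/-!
# Reduction of acylindrical actions on trees to the theorem on products of trees
-/

set_option autoImplicit false

namespace Pool.Agent.H54.AX

open Pool.Agent.H98.FJ Pool.Agent.H93.TR Pool.Agent.H76.VC

/-- the theorem on products of trees, for one tree -/
def PT1 (C : (G : Type) → [Group G] → Prop) : Prop :=
  ∀ (G V : Type) [Group G] [Countable V] [Nonempty V] [MulAction G V] (T : SimpleGraph V), Group.FG G →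
    Pool.Agent.H76.GT.Pres G T → T.IsTree → (∀ x : V, C (MulAction.stabilizer G x)) →
    @LocRig C G _ 1 (fun _ => V) (fun _ => inferInstance) (fun _ => T) 1 → C G

variable {C : (G : Type) → [Group G] → Prop}

theorem one_tree (hC : Inherits C) (hP : PT1 C) {G Q V : Type} [Group G] [Group Q] [MulAction Q V] (hG : Group.FG G)
    [Countable V] (p : G →* Q) {X : SimpleGraph V} (hX : OnTree Q X) {k N : ℕ} (hA : Acy Q X k N)
    (hst : ∀ v : V, C ((MulAction.stabilizer Q v).comap p))
    (hVC : ∀ U : Subgroup Q, VirtuallyCyclic U → C (U.comap p)) : C G := by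
  letI hGV : MulAction G V := MulAction.compHom V p
  have := hX.tree.connected.nonempty
  refine hP G V X hG ⟨fun g x y h => hX.adj (p g) x y h⟩ hX.tree (fun x => ?_) (locRig hC p hX hA hVC)
  refine hC.of_injective
    { toFun := fun y : MulAction.stabilizer G x => (⟨y.1, y.2⟩ : (MulAction.stabilizer Q x).comap p)
      map_one' := rfl
      map_mul' := fun _ _ => rfl } (fun a b hab => Subtype.ext (Subtype.mk.inj hab)) (hst x)

theorem acylExt (hC : Inherits C) (hP : PT1 C) : AcylExt C := by
  classical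
  intro G Q V _ _ _ _ p X _ hX hadj _ hA hst hVC
  obtain ⟨k, N, hA⟩ := hA
  refine of_fg hC G fun H hH => ?_
  obtain ⟨Q', hQ'⟩ : ∃ Q' : Subgroup Q, Q' = H.map p := ⟨_, rfl⟩
  have hmem : ∀ x : H, p x.1 ∈ Q' := fun x => hQ' ▸ Subgroup.mem_map_of_mem p x.2
  let p' : H →* Q' := (p.comp H.subtype).codRestrict Q' hmem
  have hcQ : Countable Q' := by
    have h1 : ((Q' : Subgroup Q) : Set Q).Countable := by
      rw [hQ', Subgroup.coe_map]
      exact (Set.to_countable (H : Set G)).image p
    exact h1.to_subtype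
  have hX' : OnTree Q' X := ⟨hX, fun g v w h => hadj g v w h⟩
  obtain ⟨W, hW, hXW, hd⟩ := exists_ctree hX'
  refine one_tree hC hP ((Group.fg_iff_subgroup_fg H).2 hH) p' hXW (k := k) (N := N) ?_ ?_ ?_
  · intro v w hvw
    rw [hd] at hvw
    obtain ⟨s, hs, hs'⟩ := hA v w hvw
    refine ⟨s.subtype (fun x => x ∈ Q'), ?_, ?_⟩
    · rw [Finset.card_subtype]
      exact (Finset.card_filter_le _ _).trans hs
    · intro q hv hw
      rw [Finset.mem_subtype]
      exact hs' q (congrArg Subtype.val hv) (congrArg Subtype.val hw)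
  · intro v
    have h1 : ∀ x : (MulAction.stabilizer Q' v).comap p', x.1.1 ∈ (MulAction.stabilizer Q (v : V)).comap p := by
      intro x
      have h2 : p' x.1 • v = v := x.2
      exact congrArg Subtype.val h2
    exact hC.of_injective
      { toFun := fun x : (MulAction.stabilizer Q' v).comap p' =>
          (⟨x.1.1, h1 x⟩ : (MulAction.stabilizer Q (v : V)).comap p)
        map_one' := rfl
        map_mul' := fun _ _ => rfl } (fun a b hab => Subtype.ext (Subtype.ext (Subtype.mk.inj hab))) (hst v)
  · intro U hU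
    have h3 : VirtuallyCyclic (U.map Q'.subtype) := by
      refine vc_of_injective (U.equivMapOfInjective Q'.subtype Q'.subtype_injective).symm.toMonoidHom
        (U.equivMapOfInjective Q'.subtype Q'.subtype_injective).symm.injective hU
    have h1 : ∀ x : U.comap p', x.1.1 ∈ (U.map Q'.subtype).comap p := by
      intro x
      exact ⟨p' x.1, x.2, rfl⟩
    exact hC.of_injective
      { toFun := fun x : U.comap p' => (⟨x.1.1, h1 x⟩ : (U.map Q'.subtype).comap p)
        map_one' := rfl
        map_mul' := fun _ _ => rfl } (fun a b hab => Subtype.ext (Subtype.ext (Subtype.mk.inj hab))) (hVC _ h3)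

theorem acylTrees (hC : Inherits C) (hP : PT1 C) : Pool.Agent.H54.PA.AcylTrees C := by
  intro G V _ _ _ X hX hadj hinv hA hst
  obtain ⟨k, N, hA⟩ := hA
  refine acylExt hC hP G G V (MonoidHom.id G) X Function.surjective_id hX hadj hinv ⟨k, N, ?_⟩ ?_ ?_
  · intro v w hvw
    obtain ⟨h1, h2⟩ := hA v w hvw
    refine ⟨h1.toFinset, ?_, ?_⟩
    · rwa [← Set.ncard_eq_toFinset_card _ h1]
    · intro q hv hw
      rw [Set.Finite.mem_toFinset]
      exact ⟨hv, hw⟩
  · intro v
    rw [Subgroup.comap_id]
    exact hst v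
  · intro U hU
    rw [Subgroup.comap_id]
    exact vcyc_mem hC U hU

end Pool.Agent.H54.AX
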