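import Pool.Agent.H54.AX.Defs

/-!
# Two lines in a tree which stay close

Proof. Let `y = L i`, `l` a natural number with `l * |s'| > D + |i|`, `A = L (- l s')`, `B = L (l s')`, `A' = L' (- l s)`, `B' = L' (l s)`. Suppose `y` is not on `L'`. The walk which consists of a geodesic from
`A` to `A'` (length `≤ D`, its vertices are at distance `≤ D` from `A`, and `X.dist A y = l |s'| ± i > D`), the part of `L'` from `A'` to `B'` (a walk whose support is in the range of `L'`), and a geodesic from `B'`
to `B` does not pass through `y`. But `y` is in the support of every walk from `A` to `B`: `Walk.bypass` is the unique path from `A` to `B` with support in the support of the walk, and the concatenation of geodesics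
from `A` to `y` and from `y` to `B` is a path (its length is `X.dist A B`: `SimpleGraph.Walk.isPath_of_length_eq_dist`), so it is this path.
-/

set_option autoImplicit false

namespace Pool.Agent.H54.AX

variable {V : Type} {X : SimpleGraph V}

/-- a vertex between `A` and `B` is on every walk from `A` to `B` -/
theorem mem_of_between (hX : X.IsTree) {A y B : V} (h : X.dist A y + X.dist y B = X.dist A B) (w : X.Walk A B) :
    y ∈ w.support := by
  classical
  obtain ⟨p, hp⟩ := hX.connected.exists_walk_length_eq_dist A y
  obtain ⟨q, hq⟩ := hX.connected.exists_walk_length_eq_dist y B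
  have hl : (p.append q).length = X.dist A B := by
    rw [SimpleGraph.Walk.length_append, hp, hq, h]
  have hP : (p.append q).IsPath := SimpleGraph.Walk.isPath_of_length_eq_dist _ hl
  have he := hX.isAcyclic.path_unique ⟨p.append q, hP⟩ ⟨w.bypass, w.bypass_isPath⟩
  have he' : p.append q = w.bypass := congrArg Subtype.val he
  apply w.support_bypass_subset
  rw [← he', SimpleGraph.Walk.mem_support_append_iff]
  exact Or.inl p.end_mem_support

/-- vertices of a short walk are near its start -/
theorem dist_le_of_mem {A B u : V} (w : X.Walk A B) (hu : u ∈ w.support) : X.dist A u ≤ w.length := by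
  classical
  exact (SimpleGraph.dist_le (w.takeUntil u hu)).trans (w.length_takeUntil_le_length hu)

theorem dist_le_of_mem' {A B u : V} (w : X.Walk A B) (hu : u ∈ w.support) : X.dist u B ≤ w.length := by
  classical
  exact (SimpleGraph.dist_le (w.dropUntil u hu)).trans (w.length_dropUntil_le_length hu)

theorem line_adj {L : ℤ → V} (hL : Line X L) (i : ℤ) : X.Adj (L i) (L (i + 1)) := by
  have h := hL i (i + 1)
  rw [show |i - (i + 1)| = 1 by rw [show i - (i + 1) = -1 by ring]; rfl] at h
  exact SimpleGraph.dist_eq_one_iff_adj.mp (by exact_mod_cast h)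

theorem line_walk_nat {L : ℤ → V} (hL : Line X L) (a : ℤ) (n : ℕ) :
    ∃ w : X.Walk (L a) (L (a + n)), ∀ u ∈ w.support, ∃ j, u = L j := by
  induction n with
  | zero =>
    refine ⟨(SimpleGraph.Walk.nil).copy rfl (by simp), ?_⟩
    intro u hu
    simp only [SimpleGraph.Walk.support_copy, SimpleGraph.Walk.support_nil, List.mem_singleton] at hu
    exact ⟨a, hu⟩
  | succ n ih =>
    obtain ⟨w, hw⟩ := ih
    have h1 : X.Adj (L (a + n)) (L (a + (n + 1 : ℕ))) := by
      have := line_adj hL (a + n)
      rwa [show a + (n : ℤ) + 1 = a + ((n + 1 : ℕ) : ℤ) by push_cast; ring] at this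
    refine ⟨w.concat h1, ?_⟩
    intro u hu
    rw [SimpleGraph.Walk.support_concat, List.mem_append, List.mem_singleton] at hu
    rcases hu with hu | hu
    · exact hw u hu
    · exact ⟨_, hu⟩

theorem line_walk {L : ℤ → V} (hL : Line X L) (a b : ℤ) :
    ∃ w : X.Walk (L a) (L b), ∀ u ∈ w.support, ∃ j, u = L j := by
  rcases le_total a b with h | h
  · have hw0 := line_walk_nat hL a (b - a).toNat
    have he : a + ((b - a).toNat : ℤ) = b := by
      rw [Int.toNat_of_nonneg (by omega)]; ring
    rwa [he] at hw0
  · have hw0 := line_walk_nat hL b (a - b).toNat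
    have he : b + ((a - b).toNat : ℤ) = a := by
      rw [Int.toNat_of_nonneg (by omega)]; ring
    rw [he] at hw0
    obtain ⟨w, hw⟩ := hw0
    refine ⟨w.reverse, fun u hu => hw u ?_⟩
    rwa [SimpleGraph.Walk.support_reverse, List.mem_reverse] at hu

theorem cross (hX : X.IsTree) {L L' : ℤ → V} (hL : Line X L) (hL' : Line X L') {s s' : ℤ} (hs : s ≠ 0) (hs' : s' ≠ 0) {D : ℕ}
    (h : ∀ l : ℤ, X.dist (L' (l * s)) (L (l * s')) ≤ D) (i : ℤ) : ∃ j, L i = L' j := by
  have hpos : 0 < |s'| := abs_pos.mpr hs'
  set l : ℤ := D + |i| + 1 with hl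
  have hl0 : 0 ≤ l := by positivity
  have hls : (D : ℤ) + |i| < l * |s'| := by
    have : l * 1 ≤ l * |s'| := mul_le_mul_of_nonneg_left (by omega) hl0
    omega
  have habs : |l * s'| = l * |s'| := by rw [abs_mul, abs_of_nonneg hl0]
  -- distances
  have hAy := hL (-l * s') i
  have hyB := hL i (l * s')
  have hAB := hL (-l * s') (l * s')
  have hi1 : -|i| ≤ i := neg_abs_le i
  have hi2 : i ≤ |i| := le_abs_self i
  have hD0 : (0 : ℤ) ≤ D := by positivity
  have hcase : (l * s' = l * |s'|) ∨ (l * s' = -(l * |s'|)) := by
    rcases abs_choice s' with h1 | h1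
    · left; rw [h1]
    · right; rw [h1]; ring
  have hneg : -l * s' = -(l * s') := by ring
  have key : (D : ℤ) < |(-l * s') - i| ∧ (D : ℤ) < |i - l * s'| ∧
      |(-l * s') - i| + |i - l * s'| = |(-l * s') - l * s'| := by
    rw [hneg]
    generalize l * |s'| = M at *
    generalize l * s' = m at *
    rcases hcase with rfl | rfl
    · rw [abs_of_neg (show -m - i < 0 by omega), abs_of_neg (show i - m < 0 by omega),
        abs_of_neg (show -m - m < 0 by omega)]
      omega
    · rw [abs_of_pos (show 0 < - -M - i by omega), abs_of_pos (show 0 < i - -M by omega),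
        abs_of_pos (show 0 < - -M - -M by omega)]
      omega
  obtain ⟨k1, k2, k3⟩ := key
  have hbet : X.dist (L (-l * s')) (L i) + X.dist (L i) (L (l * s')) = X.dist (L (-l * s')) (L (l * s')) := by
    have : ((X.dist (L (-l * s')) (L i) + X.dist (L i) (L (l * s')) : ℕ) : ℤ)
        = (X.dist (L (-l * s')) (L (l * s')) : ℕ) := by
      push_cast
      rw [hAy, hyB, hAB, k3]
    exact_mod_cast this
  obtain ⟨p, hp⟩ := hX.connected.exists_walk_length_eq_dist (L (-l * s')) (L' (-l * s))
  obtain ⟨q, hq⟩ := hX.connected.exists_walk_length_eq_dist (L' (l * s)) (L (l * s'))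
  obtain ⟨w, hw⟩ := line_walk hL' (-l * s) (l * s)
  have hm := mem_of_between hX hbet ((p.append w).append q)
  rw [SimpleGraph.Walk.mem_support_append_iff, SimpleGraph.Walk.mem_support_append_iff] at hm
  rcases hm with (hm | hm) | hm
  · exfalso
    have h1 := dist_le_of_mem p hm
    have h2 := h (-l)
    rw [SimpleGraph.dist_comm, ← hp] at h2
    have h3 : ((X.dist (L (-l * s')) (L i) : ℕ) : ℤ) ≤ D := by exact_mod_cast h1.trans h2
    omega
  · exact hw _ hm
  · exfalso
    have h1 := dist_le_of_mem' q hm
    have h2 := h l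
    rw [← hq] at h2
    have h3 : ((X.dist (L i) (L (l * s')) : ℕ) : ℤ) ≤ D := by exact_mod_cast h1.trans h2
    omega

end Pool.Agent.H54.AX
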