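import Pool.Agent.H76.VC.Lin

/-!
# Acylindrical actions on a tree: definitions
-/

set_option autoImplicit false

namespace Pool.Agent.H54.AX

open Pool.Agent.H98.FJ Pool.Agent.H93.TR

/-- `f` is a geodesic between the parameters `- m` and `m` -/
def Geo1 {V : Type} (X : SimpleGraph V) (m : ℕ) (f : ℤ → V) : Prop :=
  ∀ i j : ℤ, |i| ≤ m → |j| ≤ m → (X.dist (f i) (f j) : ℤ) = |i - j|

/-- `h` translates `f` by `v` between the parameters `- m` and `m` -/
def Trn1 {Q : Type} [Group Q] {V : Type} [MulAction Q V] (m : ℕ) (f : ℤ → V) (h : Q) (v : ℤ) : Prop :=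
  ∀ i : ℤ, |i| ≤ m → h • f i = f (i + v)

/-- `L` is a geodesic line -/
def Line {V : Type} (X : SimpleGraph V) (L : ℤ → V) : Prop := ∀ i j : ℤ, (X.dist (L i) (L j) : ℤ) = |i - j|

/-- at most `N` elements fix two vertices at distance at least `k` -/
def Acy (Q : Type) [Group Q] {V : Type} [MulAction Q V] (X : SimpleGraph V) (k N : ℕ) : Prop :=
  ∀ v w : V, k ≤ X.dist v w → ∃ s : Finset Q, s.card ≤ N ∧ ∀ q : Q, q • v = v → q • w = w → q ∈ s

end Pool.Agent.H54.AX
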