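import Pool.Agent.H76.GT.DefsT
import Pool.Agent.H76.GT.Th

/-!
# Local rigidity of actions on finitely many trees

`Bx V r`: parametrised boxes of radius `r`, families of paths of length `2 r` (maps `Fin (2 * r + 1) → V k`); `bx r p f` is
the box of radius `r` at the position `p` of the paths `f k : ℤ → V k`.
-/

set_option autoImplicit false

namespace Pool.Agent.H54.AX

open Pool.Agent.H98.FJ Pool.Agent.H76.GT

/-- parametrised boxes -/
abbrev Bx {n : ℕ} (V : Fin n → Type) (r : ℕ) : Type := ∀ k, Fin (2 * r + 1) → V k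

/-- the box of radius `r` at the position `p` -/
def bx {n : ℕ} {V : Fin n → Type} (r : ℕ) (p : Fin n → ℤ) (f : ∀ k, ℤ → V k) : Bx V r :=
  fun k i => f k (p k - r + (i : ℕ))

/-- the paths `f k` are geodesics between the parameters `- m` and `m` -/
def Geo {n : ℕ} {V : Fin n → Type} (T : ∀ k, SimpleGraph (V k)) (m : ℕ) (f : ∀ k, ℤ → V k) : Prop :=
  ∀ k (i j : ℤ), |i| ≤ m → |j| ≤ m → ((T k).dist (f k i) (f k j) : ℤ) = |i - j|

/-- the element `h` translates the paths by `v`, for the parameters between `- m` and `m` -/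
def Trn {G : Type} [Group G] {n : ℕ} {V : Fin n → Type} [∀ k, MulAction G (V k)] (m : ℕ) (f : ∀ k, ℤ → V k) (h : G)
    (v : Fin n → ℤ) : Prop :=
  ∀ k (i : ℤ), |i| ≤ m → h • f k i = f k (i + v k)

/-- Local rigidity with `q` families of objects: for all `R`, `a` there are a radius `r`, and `q` equivariant partial
functions `Obj t` on the boxes of radius `r` with values in `G`-sets with stabilisers in `C`, such that at every position of
paths either one of the objects is defined and constant for all positions at distance at most `R`, or no element of the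
group translates the box of radius `r + R` by a nonzero vector of length at most `a`. -/
def LocRig (C : (G : Type) → [Group G] → Prop) {G : Type} [Group G] {n : ℕ} {V : Fin n → Type}
    [∀ k, MulAction G (V k)] (T : ∀ k, SimpleGraph (V k)) (q : ℕ) : Prop :=
  ∀ R a : ℕ, ∃ (r : ℕ) (Ω : Fin q → Type) (_ : ∀ t, MulAction G (Ω t)) (Obj : ∀ t, Bx V r → Ω t → Prop),
    (∀ t B o o', Obj t B o → Obj t B o' → o = o') ∧
    (∀ t B o (g : G), Obj t B o → Obj t (g • B) (g • o)) ∧
    (∀ t B o, Obj t B o → C (MulAction.stabilizer G o)) ∧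
    ∀ f : ∀ k, ℤ → V k, Geo T (r + R + a) f →
      (∃ t o, ∀ δ : Fin n → ℤ, (∀ k, |δ k| ≤ R) → Obj t (bx r δ f) o) ∨
      ∀ v : Fin n → ℤ, v ≠ 0 → (∀ k, |v k| ≤ a) → ∀ h : G, ¬ Trn (r + R) f h v

end Pool.Agent.H54.AX
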